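import Pool.Agent.Helper78.Om2.Space

/-!
# MP_577fd0_gt: a non-separable space with small closures of discrete subspaces of `C_p(X)`
-/

set_option autoImplicit false

open Set TopologicalSpace Topology

namespace Pool.Agent.Results.MP_577fd0_gt.NonSeparable

/-- `C_p(X)`: the continuous functions from `X` to `ℝ`, a subspace of the product `X → ℝ`. -/
abbrev Cp (X : Type) [TopologicalSpace X] : Type := {f : X → ℝ // Continuous f}

/-- If a point of `C_p(X)` is a `G_δ`, then the Tychonoff space `X` is separable. -/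
private theorem separable_of_gdelta (X : Type) [TopologicalSpace X] [T35Space X] (f : Cp X)
    (h : ∃ U : ℕ → Set (Cp X), (∀ n, IsOpen (U n)) ∧ ⋂ n, U n = {f}) : SeparableSpace X := by
  classical
  obtain ⟨U, hU, hUf⟩ := h
  have hfU : ∀ n, f ∈ U n := fun n => by
    have h1 : f ∈ ⋂ n, U n := by
      rw [hUf]
      rfl
    exact mem_iInter.1 h1 n
  have h1 : ∀ n, ∃ F : Finset X, ∀ g : Cp X, (∀ x ∈ F, g.1 x = f.1 x) → g ∈ U n := by
    intro n
    obtain ⟨V, hV, hVU⟩ := isOpen_induced_iff.1 (hU n)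
    have hfV : f.1 ∈ V := by
      have h2 : f ∈ Subtype.val ⁻¹' V := by
        rw [hVU]
        exact hfU n
      exact h2
    obtain ⟨F, u, hu, hF⟩ := isOpen_pi_iff.1 hV f.1 hfV
    refine ⟨F, fun g hg => ?_⟩
    rw [← hVU]
    refine hF fun x hx => ?_
    rw [hg x hx]
    exact (hu x hx).2
  choose F hF using h1
  refine ⟨⋃ n, (F n : Set X), countable_iUnion fun n => (F n).countable_toSet, ?_⟩
  by_contra hd
  rw [dense_iff_closure_eq] at hd
  obtain ⟨x, hx⟩ := (ne_univ_iff_exists_notMem _).1 hd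
  obtain ⟨g, hg, hgx, hgK⟩ := CompletelyRegularSpace.completely_regular x _ isClosed_closure hx
  have hg1 : Continuous fun y => f.1 y + (1 - (g y : ℝ)) :=
    f.2.add (continuous_const.sub (continuous_subtype_val.comp hg))
  have h2 : (⟨fun y => f.1 y + (1 - (g y : ℝ)), hg1⟩ : Cp X) ∈ ⋂ n, U n := by
    refine mem_iInter.2 fun n => hF n _ fun y hy => ?_
    have h3 : y ∈ closure (⋃ n, (F n : Set X)) := subset_closure (mem_iUnion.2 ⟨n, hy⟩)
    have h4 : g y = 1 := hgK h3
    change f.1 y + (1 - (g y : ℝ)) = f.1 y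
    rw [h4]
    simp
  rw [hUf, mem_singleton_iff] at h2
  have h3 : f.1 x + (1 - (g x : ℝ)) = f.1 x := congrFun (congrArg Subtype.val h2) x
  rw [hgx] at h3
  simp at h3

/-- Negative answer to Q1. -/
theorem result : ∃ (X : Type) (_ : TopologicalSpace X), T35Space X ∧
    IsTopologicalBasis {U : Set X | IsClopen U} ∧ Cardinal.mk X ≤ Cardinal.aleph 2 ∧
    ¬ SeparableSpace X ∧
    (∀ f : Cp X, ¬ ∃ U : ℕ → Set (Cp X), (∀ n, IsOpen (U n)) ∧ ⋂ n, U n = {f}) ∧
    ∀ D : Set (Cp X), DiscreteTopology D →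
      (∀ f : closure D, ∃ U : ℕ → Set (closure D), (∀ n, IsOpen (U n)) ∧ ⋂ n, U n = {f}) ∧
      ∃ A : Set X, A.Countable ∧
        ∀ f ∈ closure D, ∀ g ∈ closure D, (∀ x ∈ A, f.1 x = g.1 x) → f = g := by
  classical
  refine ⟨Pool.Agent.Helper78.Om2.X, inferInstance, inferInstance, ?_, ?_,
    Pool.Agent.Helper78.Om2.not_separable, ?_, ?_⟩
  · have h1 : IsTopologicalBasis {s : Set (Pool.Agent.Helper78.Om2.K → Bool) | IsClopen s} :=
      isTopologicalBasis_isClopen
    have h2 := h1.isInducing (f := (Subtype.val : Pool.Agent.Helper78.Om2.X → _)) IsInducing.subtypeVal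
    refine isTopologicalBasis_of_isOpen_of_nhds (fun U hU => hU.isOpen) fun x U hx hU => ?_
    obtain ⟨V, hV, hxV, hVU⟩ := h2.exists_subset_of_mem_open hx hU
    obtain ⟨V', hV', rfl⟩ := hV
    exact ⟨_, hV'.preimage continuous_subtype_val, hxV, hVU⟩
  · have h1 := Cardinal.mk_range_le (f := Pool.Agent.Helper78.Om2.pt)
    rw [Pool.Agent.Helper78.Om2.mk_K] at h1
    exact h1
  · exact fun f hf => Pool.Agent.Helper78.Om2.not_separable (separable_of_gdelta _ f hf)
  · intro D hD
    have hdisc : ∀ d ∈ Subtype.val '' D, ∃ U : Set (Pool.Agent.Helper78.Om2.X → ℝ), IsOpen U ∧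
        U ∩ (Subtype.val '' D) = {d} := by
      rintro _ ⟨d, hd, rfl⟩
      obtain ⟨V, hV, hVD⟩ := discreteTopology_subtype_iff'.1 hD d hd
      obtain ⟨U, hU, rfl⟩ := isOpen_induced_iff.1 hV
      refine ⟨U, hU, ?_⟩
      ext g
      constructor
      · rintro ⟨h1, d', hd', rfl⟩
        have h2 : d' ∈ Subtype.val ⁻¹' U ∩ D := ⟨h1, hd'⟩
        rw [hVD] at h2
        rw [mem_singleton_iff.1 h2]
        rfl
      · rintro rfl
        have h2 : d ∈ Subtype.val ⁻¹' U ∩ D := by
          rw [hVD]
          rfl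
        exact ⟨h2.1, d, hd, rfl⟩
    obtain ⟨γ, hγ⟩ := Pool.Agent.Helper78.Om2.exists_dep_discrete (Subtype.val '' D)
      (by rintro _ ⟨d, _, rfl⟩; exact d.2) hdisc
    obtain ⟨z, hz⟩ := Pool.Agent.Helper78.Om2.exists_countable γ
    have hcl : ∀ g ∈ closure D, Pool.Agent.Helper78.Om2.Dep γ g.1 := by
      intro g hg x y hxy
      have hclosed : IsClosed {g : Pool.Agent.Helper78.Om2.X → ℝ | g x = g y} :=
        isClosed_eq (continuous_apply x) (continuous_apply y)
      have h1 : g.1 ∈ closure (Subtype.val '' D) :=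
        image_closure_subset_closure_image continuous_subtype_val (mem_image_of_mem _ hg)
      exact closure_minimal (fun d hd => hγ d hd x y hxy) hclosed h1
    have key : ∀ f ∈ closure D, ∀ g ∈ closure D, (∀ q, f.1 (z q) = g.1 (z q)) → f = g := by
      intro f hf g hg h
      exact Subtype.ext (hz f.1 g.1 f.2 g.2 (hcl f hf) (hcl g hg) h)
    refine ⟨?_, range z, countable_range z, ?_⟩
    · intro f
      obtain ⟨φ, hφ⟩ := exists_surjective_nat (Finset (List Bool) × ℕ)
      refine ⟨fun n => {g : closure D | |g.1.1 (z (φ n).1) - f.1.1 (z (φ n).1)| < 1 / (((φ n).2 : ℝ) + 1)}, ?_, ?_⟩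
      · intro n
        refine isOpen_lt (continuous_abs.comp (Continuous.sub ?_ continuous_const)) continuous_const
        exact (continuous_apply (z (φ n).1)).comp (continuous_subtype_val.comp continuous_subtype_val)
      · ext g
        rw [mem_iInter, mem_singleton_iff]
        constructor
        · intro h
          refine Subtype.ext (key g.1 g.2 f.1 f.2 fun q => ?_)
          by_contra hne
          have hpos : 0 < |g.1.1 (z q) - f.1.1 (z q)| := abs_pos.2 (sub_ne_zero.2 hne)
          obtain ⟨m, hm⟩ := exists_nat_one_div_lt hpos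
          obtain ⟨n, hn⟩ := hφ (q, m)
          have h4 := h n
          rw [mem_ofPred_eq, hn] at h4
          exact lt_asymm hm h4
        · rintro rfl n
          rw [mem_ofPred_eq, sub_self, abs_zero]
          positivity
    · intro f hf g hg h
      exact key f hf g hg fun q => h _ (mem_range_self q)

end Pool.Agent.Results.MP_577fd0_gt.NonSeparable
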